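import Mathlib

set_option autoImplicit false

namespace Pool.Agent.Results.MP_739307_an.Depends

open Filter Topology ZeroAtInfty

/-- The net `e` (indexed by `J`) is a two-sided approximate identity. -/
def IsAI {A J : Type*} [NonUnitalNormedRing A] [Preorder J] (e : J → A) : Prop :=
  ∀ x, Tendsto (fun j => ‖e j * x - x‖) atTop (𝓝 0) ∧ Tendsto (fun j => ‖x * e j - x‖) atTop (𝓝 0)

/-- The condition `C(a, l, e)`. -/
def Cond {A J : Type*} [NonUnitalNormedRing A] [NormedSpace ℂ A] [Preorder J]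
    (a : A) (l : ℂ) (e : J → A) : Prop :=
  ∃ r : J → A, IsAI fun j => (l • e j - a) * r j

noncomputable def ind (n : ℕ) (c : ℂ) : C₀(ℕ, ℂ) where
  toFun k := if k = 0 then c else if k ≤ n then 1 else 0
  continuous_toFun := continuous_of_discreteTopology
  zero_at_infty' := by
    rw [cocompact_eq_cofinite, Nat.cofinite_eq_atTop]
    refine tendsto_const_nhds.congr' ?_
    filter_upwards [eventually_gt_atTop n] with k hk
    rw [if_neg (by omega), if_neg (by omega)]

lemma ind_apply (n : ℕ) (c : ℂ) (k : ℕ) :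
    ind n c k = if k = 0 then c else if k ≤ n then 1 else 0 := rfl

lemma ai (c : ℕ → ℂ) (h : Tendsto c atTop (𝓝 1)) : IsAI fun n => ind n (c n) := by
  intro x
  have key : Tendsto (fun n => ‖ind n (c n) * x - x‖) atTop (𝓝 0) := by
    refine (Metric.tendsto_nhds).2 fun ε hε => ?_
    have h1 := x.zero_at_infty'
    rw [cocompact_eq_cofinite, Nat.cofinite_eq_atTop] at h1
    obtain ⟨N, hN⟩ := eventually_atTop.1 (Metric.tendsto_nhds.1 h1 (ε / 2) (by linarith))
    have h2 := Metric.tendsto_nhds.1 (h.mul_const (x 0)) (ε / 2) (by linarith)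
    filter_upwards [h2, eventually_ge_atTop N] with n h3 h4
    rw [dist_zero_right, norm_norm, ← ZeroAtInftyContinuousMap.norm_toBCF_eq_norm]
    refine lt_of_le_of_lt ((BoundedContinuousFunction.norm_le (by linarith : 0 ≤ ε / 2)).2 fun k => ?_)
      (by linarith)
    change ‖ind n (c n) k * x k - x k‖ ≤ _
    rw [ind_apply]
    split_ifs with a b
    · rw [one_mul, dist_eq_norm] at h3; rw [a]; exact h3.le
    · rw [one_mul, sub_self, norm_zero]; linarith
    · have := hN k (by omega)
      rw [dist_zero_right] at this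
      rw [zero_mul, zero_sub, norm_neg]; exact this.le
  refine ⟨key, key.congr fun n => ?_⟩
  congr 2
  ext k
  exact mul_comm _ _

theorem result : ∃ (a : C₀(ℕ, ℂ)) (E F : ℕ → C₀(ℕ, ℂ)),
    IsAI E ∧ IsAI F ∧ Cond a 1 E ∧ ¬ Cond a 1 F := by
  refine ⟨ind 0 1, fun n => ind n (1 + 1 / (n + 1)), fun n => ind n 1, ai _ ?_,
    ai _ tendsto_const_nhds, ⟨fun n => ind n (n + 1), ?_⟩, ?_⟩
  · simpa using (tendsto_one_div_add_atTop_nhds_zero_nat (𝕜 := ℂ)).const_add 1
  · convert ai (fun _ => 1) tendsto_const_nhds using 2 with n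
    ext k
    change ((1 : ℂ) • ind n (1 + 1 / (n + 1)) k - ind 0 1 k) * ind n (n + 1) k = _
    have : (n : ℂ) + 1 ≠ 0 := Nat.cast_add_one_ne_zero n
    simp only [ind_apply, one_smul]
    split_ifs <;> first | omega | (field_simp; ring) | simp
  · rintro ⟨r, h⟩
    obtain ⟨n, hn⟩ := (Metric.tendsto_nhds.1 (h (ind 0 1)).1 1 one_pos).exists
    rw [dist_zero_right, norm_norm, ← ZeroAtInftyContinuousMap.norm_toBCF_eq_norm] at hn
    have := (BoundedContinuousFunction.norm_coe_le_norm _ 0).trans_lt hn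
    change ‖((1 : ℂ) • ind n 1 0 - ind 0 1 0) * r n 0 * ind 0 1 0 - ind 0 1 0‖ < 1 at this
    simp [ind_apply] at this

end Pool.Agent.Results.MP_739307_an.Depends
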